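import Pool.Agent.helper42.NS.Spec

set_option autoImplicit false

/-!
# Row nos:CNT: half of the graphs are good
-/

namespace Pool.Agent.helper42.NS

open Polynomial Matrix

theorem CNT_fin (t : ℕ) : {H : Matrix (Fin t) (Fin t) ℤ | IsGr H}.Finite := by
  refine Set.Finite.subset (Set.finite_range
    (fun B : Fin t → Fin t → Bool => (Matrix.of fun i j => if B i j then (1 : ℤ) else 0))) ?_
  intro H hH
  refine ⟨fun i j => decide (H i j = 1), ?_⟩
  ext i j
  show (if decide (H i j = 1) = true then (1 : ℤ) else 0) = H i j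
  rcases hH.1 i j with h | h <;> simp [h]

theorem CNT_gr {t : ℕ} {H : Matrix (Fin t) (Fin t) ℤ} (hH : IsGr H) (b : Fin t → Bool) :
    IsGr (bord H (ind b)) := by
  refine ⟨?_, ?_, ?_⟩
  · intro i j
    refine Fin.cases ?_ (fun i => ?_) i
    · refine Fin.cases ?_ (fun j => ?_) j
      · exact Or.inl rfl
      · rw [bord_zero_succ]
        unfold ind
        by_cases h : b j
        · right; rw [if_pos h]
        · left; rw [if_neg h]
    · refine Fin.cases ?_ (fun j => ?_) j
      · rw [bord_succ_zero]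
        unfold ind
        by_cases h : b i
        · right; rw [if_pos h]
        · left; rw [if_neg h]
      · rw [bord_succ_succ]
        exact hH.1 i j
  · intro i
    refine Fin.cases rfl (fun i => ?_) i
    rw [bord_succ_succ]
    exact hH.2.1 i
  · intro i j
    refine Fin.cases ?_ (fun i => ?_) i
    · refine Fin.cases rfl (fun j => ?_) j
      rw [bord_zero_succ, bord_succ_zero]
    · refine Fin.cases ?_ (fun j => ?_) j
      · rw [bord_zero_succ, bord_succ_zero]
      · rw [bord_succ_succ, bord_succ_succ]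
        exact hH.2.2 i j

theorem CNT_inj {t : ℕ} {H H' : Matrix (Fin t) (Fin t) ℤ} {b b' : Fin t → Bool}
    (h : bord H (ind b) = bord H' (ind b')) : H = H' ∧ b = b' := by
  constructor
  · ext i j
    have := congrFun (congrFun h i.succ) j.succ
    rwa [bord_succ_succ, bord_succ_succ] at this
  · funext j
    have := congrFun (congrFun h 0) j.succ
    rw [bord_zero_succ, bord_zero_succ] at this
    unfold ind at this
    cases hb : b j <;> cases hb' : b' j <;> simp [hb, hb'] at this ⊢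

theorem CNT_zero (L : ℕ) :
    1 ≤ Set.ncard {H : Matrix (Fin 0) (Fin 0) ℤ | IsGr H ∧ Good L H} := by
  rw [Nat.one_le_iff_ne_zero, Ne, Set.ncard_eq_zero ((CNT_fin 0).subset fun H h => h.1)]
  intro h
  have h1 : (0 : Matrix (Fin 0) (Fin 0) ℤ) ∈
      {H : Matrix (Fin 0) (Fin 0) ℤ | IsGr H ∧ Good L H} := by
    refine ⟨⟨fun i => i.elim0, fun i => i.elim0, fun i => i.elim0⟩, fun P => ?_⟩
    have h2 : crk P (0 : Matrix (Fin 0) (Fin 0) ℤ) = 0 := by
      unfold crk
      exact Module.finrank_zero_of_subsingleton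
    rw [h2]
    exact ⟨fun _ => Nat.zero_le _, Nat.zero_le _⟩
  rw [h] at h1
  exact h1

theorem CNT_step (hS : STP_stmt) (t L : ℕ) (hL : 1 ≤ L) (ht : t ≤ 2 ^ L) :
    Set.ncard {H : Matrix (Fin t) (Fin t) ℤ | IsGr H ∧ Good L H} * 2 ^ t * 2 ^ (L + 1) ≤
      Set.ncard {H : Matrix (Fin (t + 1)) (Fin (t + 1)) ℤ | IsGr H ∧ Good L H} * 2 ^ (L + 1) +
      Set.ncard {H : Matrix (Fin t) (Fin t) ℤ | IsGr H ∧ Good L H} * 2 ^ t := by
  classical
  have f1 : {H : Matrix (Fin t) (Fin t) ℤ | IsGr H ∧ Good L H}.Finite :=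
    (CNT_fin t).subset fun H h => h.1
  have f2 : {H : Matrix (Fin (t + 1)) (Fin (t + 1)) ℤ | IsGr H ∧ Good L H}.Finite :=
    (CNT_fin (t + 1)).subset fun H h => h.1
  rw [Set.ncard_eq_toFinset_card _ f1, Set.ncard_eq_toFinset_card _ f2]
  set s := f1.toFinset with hs
  set s' := f2.toFinset with hs'
  have m1 : ∀ H, H ∈ s ↔ IsGr H ∧ Good L H := fun H => by
    rw [hs, Set.Finite.mem_toFinset]; exact Iff.rfl
  have m2 : ∀ H, H ∈ s' ↔ IsGr H ∧ Good L H := fun H => by
    rw [hs', Set.Finite.mem_toFinset]; exact Iff.rfl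
  let gd : Matrix (Fin t) (Fin t) ℤ → Finset (Fin t → Bool) := fun H =>
    Finset.univ.filter fun b => Good L (bord H (ind b))
  have h1 : ∑ H ∈ s, (gd H).card ≤ s'.card := by
    rw [← Finset.card_sigma]
    refine Finset.card_le_card_of_injOn (fun p => bord p.1 (ind p.2)) ?_ ?_
    · rintro ⟨H, b⟩ hp
      rw [Finset.mem_coe, Finset.mem_sigma, m1, Finset.mem_filter] at hp
      rw [Finset.mem_coe, m2]
      exact ⟨CNT_gr hp.1.1 b, hp.2.2⟩
    · rintro ⟨H, b⟩ _ ⟨H', b'⟩ _ h
      obtain ⟨e1, e2⟩ := CNT_inj h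
      have e1' : H = H' := e1
      have e2' : b = b' := e2
      rw [e1', e2']
  have h2 : ∀ H ∈ s, 2 ^ t * 2 ^ (L + 1) ≤ (gd H).card * 2 ^ (L + 1) + 2 ^ t := by
    intro H hH
    rw [m1] at hH
    have h3 := hS t L H hL hH.1 ht hH.2
    have h4 : Set.ncard {b : Fin t → Bool | ¬ Good L (bord H (ind b))} =
        (Finset.univ.filter fun b : Fin t → Bool => ¬ Good L (bord H (ind b))).card := by
      rw [← Set.ncard_coe_finset]
      congr 1
      ext b
      simp
    rw [h4] at h3
    have h5 : (gd H).card +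
        (Finset.univ.filter fun b : Fin t → Bool => ¬ Good L (bord H (ind b))).card = 2 ^ t := by
      rw [Finset.card_filter_add_card_filter_not]
      simp
    calc 2 ^ t * 2 ^ (L + 1) = (gd H).card * 2 ^ (L + 1) +
        (Finset.univ.filter fun b : Fin t → Bool => ¬ Good L (bord H (ind b))).card *
          2 ^ (L + 1) := by rw [← h5]; ring
      _ ≤ _ := Nat.add_le_add_left h3 _
  have h3 := Finset.sum_le_sum h2
  rw [Finset.sum_const, Finset.sum_add_distrib, Finset.sum_const, ← Finset.sum_mul, smul_eq_mul,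
    smul_eq_mul] at h3
  calc s.card * 2 ^ t * 2 ^ (L + 1) = s.card * (2 ^ t * 2 ^ (L + 1)) := by ring
    _ ≤ _ := h3
    _ ≤ _ := Nat.add_le_add_right (Nat.mul_le_mul_right _ h1) _

/-- CNT. -/
theorem CNT (h : STP_stmt) : CNT_stmt := by
  intro m L hL hm
  have key : ∀ t : ℕ, t ≤ 2 ^ L → (2 : ℤ) ^ (t.choose 2) * (2 ^ (L + 1) - t) ≤
      (Set.ncard {H : Matrix (Fin t) (Fin t) ℤ | IsGr H ∧ Good L H} : ℤ) * 2 ^ (L + 1) := by
    intro t
    induction t with
    | zero =>
      intro _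
      have h1 := CNT_zero L
      have h2 : (1 : ℤ) ≤ (Set.ncard {H : Matrix (Fin 0) (Fin 0) ℤ | IsGr H ∧ Good L H} : ℤ) := by
        exact_mod_cast h1
      have h3 : (0 : ℤ) < 2 ^ (L + 1) := by positivity
      simp only [Nat.choose_zero_succ, pow_zero, one_mul, Nat.cast_zero, sub_zero]
      nlinarith
    | succ t ih =>
      intro ht
      have ht' : t ≤ 2 ^ L := by omega
      have h1 := ih ht'
      have h2 := CNT_step h t L hL ht'
      have h3 : (Set.ncard {H : Matrix (Fin t) (Fin t) ℤ | IsGr H ∧ Good L H} : ℤ) * 2 ^ t *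
          2 ^ (L + 1) ≤
          (Set.ncard {H : Matrix (Fin (t + 1)) (Fin (t + 1)) ℤ | IsGr H ∧ Good L H} : ℤ) *
            2 ^ (L + 1) +
          (Set.ncard {H : Matrix (Fin t) (Fin t) ℤ | IsGr H ∧ Good L H} : ℤ) * 2 ^ t := by
        exact_mod_cast h2
      have hc : (t + 1).choose 2 = t.choose 2 + t := by
        rw [Nat.choose_succ_succ' t 1, Nat.choose_one_right, add_comm]
      rw [hc, pow_add]
      set N : ℤ := (Set.ncard {H : Matrix (Fin t) (Fin t) ℤ | IsGr H ∧ Good L H} : ℤ) with hN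
      set N' : ℤ := (Set.ncard
        {H : Matrix (Fin (t + 1)) (Fin (t + 1)) ℤ | IsGr H ∧ Good L H} : ℤ) with hN'
      have hM : (1 : ℤ) ≤ 2 ^ (L + 1) := by
        exact_mod_cast Nat.one_le_two_pow
      set M : ℤ := 2 ^ (L + 1) with hMd
      have ha : (0 : ℤ) < 2 ^ t := by positivity
      have hb : (0 : ℤ) < 2 ^ (t.choose 2) := by positivity
      set a : ℤ := 2 ^ t
      set b : ℤ := 2 ^ (t.choose 2)
      have ht0 : (0 : ℤ) ≤ (t : ℤ) := by positivity
      -- N' M ≥ N a (M - 1), N M ≥ b (M - t)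
      have e1 : N * a * (M - 1) ≤ N' * M := by linarith
      have e2 : b * (M - t) * (a * (M - 1)) ≤ N * M * (a * (M - 1)) :=
        mul_le_mul_of_nonneg_right h1 (mul_nonneg ha.le (by linarith))
      have e3 : N * a * (M - 1) * M ≤ N' * M * M := mul_le_mul_of_nonneg_right e1 (by linarith)
      have e4 : b * a * (M - ((t : ℤ) + 1)) * M ≤ b * (M - t) * (a * (M - 1)) := by
        have : b * (M - t) * (a * (M - 1)) - b * a * (M - ((t : ℤ) + 1)) * M = b * a * t := by ring
        have h5 : 0 ≤ b * a * (t : ℤ) := by positivity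
        linarith
      have e5 : b * a * (M - ((t : ℤ) + 1)) * M ≤ N' * M * M := by
        calc _ ≤ _ := e4
          _ ≤ _ := e2
          _ = N * a * (M - 1) * M := by ring
          _ ≤ _ := e3
      push_cast
      exact le_of_mul_le_mul_right e5 (by linarith)
  have h1 := key m hm
  have h2 : (m : ℤ) ≤ 2 ^ L := by exact_mod_cast hm
  have h3 : (2 : ℤ) ^ (L + 1) = 2 * 2 ^ L := by rw [pow_succ]; ring
  rw [h3] at h1
  have h4 : (0 : ℤ) < 2 ^ L := by positivity
  have h5 : (0 : ℤ) < 2 ^ (m.choose 2) := by positivity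
  have h6 : (2 : ℤ) ^ (m.choose 2) * 2 ^ L ≤
      2 * (Set.ncard {H : Matrix (Fin m) (Fin m) ℤ | IsGr H ∧ Good L H} : ℤ) * 2 ^ L := by
    nlinarith
  have h7 := le_of_mul_le_mul_right h6 h4
  exact_mod_cast h7

end Pool.Agent.helper42.NS
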